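import Pool.Agent.Work.MP_ce2d68_du.Interface

/-!
# MP_ce2d68_nt, strong duality: block ROT (helper29)
-/

set_option autoImplicit false

open Real MeasureTheory

namespace Pool.Agent.Work.MP_ce2d68_du

namespace BROT

theorem avg {a p : ℂ} {t : ℝ} {n : ℕ} (ht : 0 < t) (hn : 1 ≤ n) :
    Real.log (t ^ n) + log⁺ ((t ^ n)⁻¹ * ‖0 - (a - p) ^ n‖) = n * Real.log (max ‖a - p‖ t) := by
  have h0 : (t ^ n)⁻¹ * ‖0 - (a - p) ^ n‖ = (‖a - p‖ / t) ^ n := by
    rw [zero_sub, norm_neg, norm_pow, div_pow, div_eq_inv_mul]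
  rw [h0]
  rcases le_or_gt ‖a - p‖ t with h | h
  · rw [max_eq_right h]
    have h1 : (‖a - p‖ / t) ^ n ≤ 1 := pow_le_one₀ (by positivity) ((div_le_one ht).2 h)
    have h2 : log⁺ ((‖a - p‖ / t) ^ n) = 0 := by
      rw [Real.posLog_eq_zero_iff, abs_of_nonneg (by positivity)]
      exact h1
    rw [h2, add_zero, Real.log_pow]
  · rw [max_eq_left h.le]
    have h1 : 1 ≤ (‖a - p‖ / t) ^ n := one_le_pow₀ ((one_le_div ht).2 h.le)
    have h2 : log⁺ ((‖a - p‖ / t) ^ n) = Real.log ((‖a - p‖ / t) ^ n) := by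
      refine Real.posLog_eq_log ?_
      rw [abs_of_nonneg (by positivity)]
      exact h1
    rw [h2, Real.log_pow, Real.log_pow, Real.log_div (by linarith [norm_nonneg (a - p)]) ht.ne']
    ring

end BROT

theorem p_ROT : Stmt_ROT := by
  intro A p t n ht hn
  have hR : 0 < t ^ n := pow_pos ht n
  have hint : ∀ a ∈ A, CircleIntegrable (fun z => Real.log ‖z - (a - p) ^ n‖) 0 (t ^ n) :=
    fun a _ => MeromorphicOn.circleIntegrable_log_norm (fun _ _ => by fun_prop)
  have havg : Real.circleAverage (fun z => ∑ a ∈ A, Real.log ‖z - (a - p) ^ n‖) 0 (t ^ n) =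
      ∑ a ∈ A, n * Real.log (max ‖a - p‖ t) := by
    rw [Real.circleAverage_fun_sum hint]
    refine Finset.sum_congr rfl (fun a _ => ?_)
    rw [← BROT.avg ht hn]
    exact circleAverage_log_norm_sub_const_eq_log_radius_add_posLog hR.ne'
  have hI : CircleIntegrable (fun z => ∑ a ∈ A, Real.log ‖z - (a - p) ^ n‖) 0 (t ^ n) :=
    CircleIntegrable.fun_sum A hint
  rw [Real.circleAverage_eq_intervalAverage] at havg
  have hpi : (0 : ℝ) < 2 * π := by positivity
  rw [Set.uIoc_of_le hpi.le] at havg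
  have hI2 : Integrable (fun θ => ∑ a ∈ A, Real.log ‖circleMap 0 (t ^ n) θ - (a - p) ^ n‖)
      (volume.restrict (Set.Ioc 0 (2 * π))) :=
    (intervalIntegrable_iff_integrableOn_Ioc_of_le hpi.le).1 hI
  have hμ : (volume.restrict (Set.Ioc 0 (2 * π)) : Measure ℝ) ≠ 0 := by
    rw [Ne, Measure.restrict_eq_zero, Real.volume_Ioc]
    simp [Real.pi_pos]
  have hN : (volume.restrict (Set.Ioc 0 (2 * π)) : Measure ℝ)
      (circleMap 0 (t ^ n) ⁻¹' ((A.image fun a => (a - p) ^ n : Finset ℂ) : Set ℂ)) = 0 :=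
    Set.Countable.measure_zero
      (Set.Countable.preimage_circleMap (Finset.countable_toSet _) 0 hR.ne') _
  obtain ⟨θ, hθ, hθ2⟩ := exists_notMem_null_average_le hμ hI2 hN
  rw [havg] at hθ2
  have hζ : ((t : ℂ) * Complex.exp (θ / n * Complex.I)) ^ n = circleMap 0 (t ^ n) θ := by
    have hn0 : (n : ℂ) ≠ 0 := by exact_mod_cast (by omega : n ≠ 0)
    rw [mul_pow, ← Complex.exp_nat_mul, circleMap, zero_add]
    push_cast
    congr 2
    field_simp
  refine ⟨Complex.exp (θ / n * Complex.I), ?_, fun a ha h => hθ ?_, ?_⟩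
  · have h1 : (θ : ℂ) / n * Complex.I = ((θ / n : ℝ) : ℂ) * Complex.I := by push_cast; ring
    rw [h1, Complex.norm_exp_ofReal_mul_I]
  · rw [Set.mem_preimage, ← hζ, ← h]
    simpa using Finset.mem_image_of_mem (fun a => (a - p) ^ n) ha
  · refine hθ2.trans (le_of_eq (Finset.sum_congr rfl fun a _ => ?_))
    rw [hζ, norm_sub_rev]

end Pool.Agent.Work.MP_ce2d68_du
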