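import Pool.Agent.Work.MP_ce2d68_du.Interface

/-!
# MP_ce2d68_nt, strong duality: block SYMC (helper29)
-/

set_option autoImplicit false

open Real

namespace Pool.Agent.Work.MP_ce2d68_du

theorem p_SYMC : Stmt_SYMC := by
  intro p q t ht
  constructor
  · rw [Real.circleAverage_def, Real.circleAverage_eq_integral_add π]
    congr 1
    refine intervalIntegral.integral_congr (fun θ _ => ?_)
    show Real.log (max ‖circleMap q t θ - p‖ t) = Real.log (max ‖circleMap p t (θ + π) - q‖ t)
    have h : circleMap q t θ - p = -(circleMap p t (θ + π) - q) := by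
      simp only [circleMap]
      have h1 : ((θ + π : ℝ) : ℂ) * Complex.I = (θ : ℂ) * Complex.I + π * Complex.I := by
        push_cast
        ring
      rw [h1, Complex.exp_add, Complex.exp_pi_mul_I]
      ring
    rw [h, norm_neg]
  · refine Real.circleAverage_const_on_circle (fun z hz => ?_)
    rw [mem_sphere_iff_norm, abs_of_pos ht] at hz
    simp only [hz, max_self]

end Pool.Agent.Work.MP_ce2d68_du
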